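import Mathlib

namespace Pool.Agent.Results.MP_d2d48a_co.TransversalCode

open Finset

/-- Hamming weight of the projection of `c` onto the coordinates in `S`. -/
def wtOn {n : ℕ} (S : Finset (Fin n)) (c : Fin n → ZMod 2) : ℕ := (S.filter (fun i => c i ≠ 0)).card

/-- Hamming weight of `c`. -/
def wt {n : ℕ} (c : Fin n → ZMod 2) : ℕ := wtOn Finset.univ c

/-- `S` is a hitting set of the code `C`: every nonzero codeword has a nonzero coordinate in
`S`. -/
def IsHittingSet {n : ℕ} (C : Submodule (ZMod 2) (Fin n → ZMod 2)) (S : Finset (Fin n)) : Prop :=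
  ∀ c ∈ C, c ≠ 0 → ∃ i ∈ S, c i ≠ 0

/-- index set of the construction -/
abbrev Idx (m d : ℕ) : Type := (Fin m × Fin d) ⊕ ((Fin m → Fin d) × Fin d)

/-- the codeword with coefficients `a`, `b` -/
def phi (m d : ℕ) (a : Fin m → ZMod 2) (b : (Fin m → Fin d) → ZMod 2) : Idx m d → ZMod 2
  | .inl (i, j) => a i + ∑ F : Fin m → Fin d, if F i = j then b F else 0
  | .inr (F, _) => b F

/-- the code -/
def code (m d n : ℕ) (e : Idx m d ≃ Fin n) : Submodule (ZMod 2) (Fin n → ZMod 2) where
  carrier := {c | ∃ a b, ∀ x, c (e x) = phi m d a b x}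
  add_mem' := by
    rintro c c' ⟨a, b, h⟩ ⟨a', b', h'⟩
    refine ⟨a + a', b + b', ?_⟩
    intro x
    rw [Pi.add_apply, h, h']
    rcases x with ⟨i, j⟩ | ⟨F, j⟩
    · simp only [phi, Pi.add_apply]
      have : ∀ F : Fin m → Fin d, (if F i = j then b F + b' F else 0) =
          (if F i = j then b F else 0) + (if F i = j then b' F else 0) := by
        intro F; split_ifs <;> simp
      simp only [this, Finset.sum_add_distrib]
      ring
    · simp [phi]
  zero_mem' := ⟨0, 0, fun x => by rcases x with ⟨i, j⟩ | ⟨F, j⟩ <;> simp [phi]⟩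
  smul_mem' := by
    rintro r c ⟨a, b, h⟩
    refine ⟨r • a, r • b, ?_⟩
    intro x
    rw [Pi.smul_apply, h]
    rcases x with ⟨i, j⟩ | ⟨F, j⟩
    · simp only [phi, Pi.smul_apply, smul_eq_mul, mul_add, Finset.mul_sum]
      congr 1
      refine Finset.sum_congr rfl fun F _ => ?_
      split_ifs <;> simp
    · simp [phi]

/-- level of an index -/
def lev {m d : ℕ} : Idx m d → Fin d
  | .inl (_, j) => j
  | .inr (_, j) => j

/-- Full disproof, for every `α > 0`: for every `d ≥ 1` some binary linear code with `d` pairwise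
disjoint hitting sets has no set `S` with `α wt(c) ≤ wt(c_S) < wt(c)` for all nonzero
codewords. -/
theorem result : ∀ α : ℝ, 0 < α → ∀ d : ℕ, 1 ≤ d →
    ∃ (n : ℕ) (C : Submodule (ZMod 2) (Fin n → ZMod 2)) (H : Fin d → Finset (Fin n)),
      1 ≤ n ∧ (∀ i j, i ≠ j → Disjoint (H i) (H j)) ∧ (∀ j, IsHittingSet C (H j)) ∧
      ¬ ∃ S : Finset (Fin n), ∀ c ∈ C, c ≠ 0 →
        α * (wt c : ℝ) ≤ (wtOn S c : ℝ) ∧ wtOn S c < wt c := by
  classical
  intro α hα d hd
  obtain ⟨m0, hm0⟩ := exists_nat_gt ((d : ℝ) / α)
  set m := m0 + 1 with hm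
  have hmα : (d : ℝ) < α * (m + d) := by
    rw [div_lt_iff₀ hα] at hm0
    have : (m : ℝ) = m0 + 1 := by rw [hm]; push_cast; ring
    rw [this]
    have hd0 : (0 : ℝ) ≤ d := by positivity
    nlinarith
  set e : Idx m d ≃ Fin (Fintype.card (Idx m d)) := Fintype.equivFin _ with he
  have hd0 : Nonempty (Fin d) := ⟨⟨0, hd⟩⟩
  refine ⟨Fintype.card (Idx m d), code m d _ e,
    fun j => univ.filter (fun x => lev (e.symm x) = j), ?_, ?_, ?_, ?_⟩
  · exact Fintype.card_pos_iff.2 ⟨.inl (⟨0, by omega⟩, hd0.some)⟩
  · intro i j hij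
    rw [Finset.disjoint_left]
    intro x hx hx'
    simp only [Finset.mem_filter, Finset.mem_univ, true_and] at hx hx'
    exact hij (hx.symm.trans hx')
  · rintro j c ⟨a, b, h⟩ hc
    by_cases hb : ∃ F, b F ≠ 0
    · obtain ⟨F, hF⟩ := hb
      refine ⟨e (.inr (F, j)), Finset.mem_filter.2 ⟨Finset.mem_univ _, by
        rw [e.symm_apply_apply]; rfl⟩, ?_⟩
      rw [h]; exact hF
    · push Not at hb
      have ha : ∃ i, a i ≠ 0 := by
        by_contra hcon
        push Not at hcon
        apply hc
        ext x
        rw [← e.apply_symm_apply x, h]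
        rcases e.symm x with ⟨i, j'⟩ | ⟨F, j'⟩ <;> simp [phi, hb, hcon]
      obtain ⟨i, hi⟩ := ha
      refine ⟨e (.inl (i, j)), Finset.mem_filter.2 ⟨Finset.mem_univ _, by
        rw [e.symm_apply_apply]; rfl⟩, ?_⟩
      rw [h]
      simpa [phi, hb] using hi
  · rintro ⟨S, hS⟩
    -- every block `A i` has an element outside `S`
    have h1 : ∀ i : Fin m, ∃ j : Fin d, e (.inl (i, j)) ∉ S := by
      intro i
      set c : Fin (Fintype.card (Idx m d)) → ZMod 2 :=
        fun x => phi m d (Pi.single i 1) 0 (e.symm x) with hc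
      have hcC : c ∈ code m d _ e := ⟨Pi.single i 1, 0, fun x => by simp [hc]⟩
      have hc0 : c ≠ 0 := by
        intro h0
        have := congrFun h0 (e (.inl (i, hd0.some)))
        simp [hc, phi] at this
      have hlt := (hS c hcC hc0).2
      by_contra hcon
      push Not at hcon
      apply absurd hlt
      push Not
      unfold wt wtOn
      refine Finset.card_le_card ?_
      intro x hx
      simp only [Finset.mem_filter, Finset.mem_univ, true_and] at hx ⊢
      refine ⟨?_, hx⟩
      rw [← e.apply_symm_apply x]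
      simp only [hc] at hx
      rcases hex : e.symm x with ⟨i', j'⟩ | ⟨F, j'⟩
      · rw [hex] at hx
        by_cases hii : i' = i
        · subst hii; exact hcon j'
        · simp [phi, hii] at hx
      · rw [hex] at hx
        simp [phi] at hx
    choose F hF using h1
    set c : Fin (Fintype.card (Idx m d)) → ZMod 2 :=
      fun x => phi m d 0 (Pi.single F 1) (e.symm x) with hc
    have hcl : ∀ i j, c (e (.inl (i, j))) = if F i = j then 1 else 0 := by
      intro i j
      simp only [hc, Equiv.symm_apply_apply, phi, Pi.zero_apply, zero_add]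
      rw [Finset.sum_eq_single F]
      · simp
      · intro F' _ hF'
        simp [hF']
      · simp
    have hcr : ∀ F' j, c (e (.inr (F', j))) = if F' = F then 1 else 0 := by
      intro F' j
      simp only [hc, Equiv.symm_apply_apply, phi, Pi.single_apply]
    have hcC : c ∈ code m d _ e := ⟨0, Pi.single F 1, fun x => by simp [hc]⟩
    have hc0 : c ≠ 0 := by
      intro h0
      have := congrFun h0 (e (.inr (F, hd0.some)))
      rw [hcr] at this
      simp at this
    have hlow := (hS c hcC hc0).1
    -- total weight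
    have hw : m + d ≤ wt c := by
      have hinj : Function.Injective (Sum.elim (fun i : Fin m => e (.inl (i, F i)))
          (fun j : Fin d => e (.inr (F, j)))) := by
        rintro (i | j) (i' | j') h <;> simp at h ⊢
        · exact h.1
        · exact h
      have h2 : (univ.image (Sum.elim (fun i : Fin m => e (.inl (i, F i)))
          (fun j : Fin d => e (.inr (F, j))))).card = m + d := by
        rw [Finset.card_image_of_injective _ hinj]
        simp
      rw [← h2]
      unfold wt wtOn
      refine Finset.card_le_card ?_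
      intro x hx
      simp only [Finset.mem_image, Finset.mem_univ, true_and] at hx
      simp only [Finset.mem_filter, Finset.mem_univ, true_and]
      obtain ⟨y, rfl⟩ := hx
      rcases y with i | j
      · simp [hcl]
      · simp [hcr]
    -- weight inside `S`
    have hwS : wtOn S c ≤ d := by
      have h3 : (univ.image (fun j : Fin d => e (.inr (F, j)))).card ≤ d := by
        refine Finset.card_image_le.trans ?_
        simp
      refine le_trans ?_ h3
      unfold wtOn
      refine Finset.card_le_card ?_
      intro x hx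
      simp only [Finset.mem_filter] at hx
      simp only [Finset.mem_image, Finset.mem_univ, true_and]
      obtain ⟨hxS, hx0⟩ := hx
      rcases hex : e.symm x with ⟨i, j⟩ | ⟨F', j⟩
      · have hxe : x = e (.inl (i, j)) := by rw [← hex, e.apply_symm_apply]
        rw [hxe, hcl] at hx0
        by_cases hij : F i = j
        · subst hij
          rw [hxe] at hxS
          exact absurd hxS (hF i)
        · simp [hij] at hx0
      · have hxe : x = e (.inr (F', j)) := by rw [← hex, e.apply_symm_apply]
        rw [hxe, hcr] at hx0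
        by_cases hij : F' = F
        · subst hij; exact ⟨j, hxe.symm⟩
        · simp [hij] at hx0
    have h4 : ((m : ℝ) + d) ≤ wt c := by exact_mod_cast hw
    have h5 : (wtOn S c : ℝ) ≤ d := by exact_mod_cast hwS
    nlinarith

end Pool.Agent.Results.MP_d2d48a_co.TransversalCode
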